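import Pool.Agent.Helper44.GN.Defs

open Finset MeasureTheory Filter Topology Matrix
open scoped ENNReal ContDiff

namespace Pool.Agent.Helper44.GN

open Pool.Agent.Helper44.GF

theorem prj_cs {n : ℕ} (u v : Fin n → ℝ) : (u ⬝ᵥ v) ^ 2 ≤ (u ⬝ᵥ u) * (v ⬝ᵥ v) := by
  unfold dotProduct
  have := Finset.sum_mul_sq_le_sq_mul_sq univ u v
  simpa [sq] using this

theorem prj_nn {n : ℕ} (u : Fin n → ℝ) : 0 ≤ u ⬝ᵥ u := by
  unfold dotProduct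
  exact Finset.sum_nonneg fun i _ => mul_self_nonneg _

theorem prj_sym {n : ℕ} {P : Matrix (Fin n) (Fin n) ℝ} (hP : Pᵀ = P) (u v : Fin n → ℝ) :
    (P *ᵥ u) ⬝ᵥ v = u ⬝ᵥ (P *ᵥ v) := by
  rw [Matrix.dotProduct_mulVec, ← Matrix.mulVec_transpose, hP]

theorem prj_con {n : ℕ} {P : Matrix (Fin n) (Fin n) ℝ} (hP : Pᵀ = P) (hP2 : P * P = P)
    (u : Fin n → ℝ) : (P *ᵥ u) ⬝ᵥ (P *ᵥ u) = u ⬝ᵥ (P *ᵥ u) ∧
      (P *ᵥ u) ⬝ᵥ (P *ᵥ u) ≤ u ⬝ᵥ u := by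
  have h1 : (P *ᵥ u) ⬝ᵥ (P *ᵥ u) = u ⬝ᵥ (P *ᵥ u) := by
    rw [prj_sym hP, Matrix.mulVec_mulVec, hP2]
  refine ⟨h1, ?_⟩
  have h2 := prj_nn (u - P *ᵥ u)
  simp only [sub_dotProduct, dotProduct_sub] at h2
  have h3 : (P *ᵥ u) ⬝ᵥ u = u ⬝ᵥ (P *ᵥ u) := dotProduct_comm _ _
  linarith

/-- `|⟨Q a, a'⟩| ≤ 1/4` for `a ⟂ a'`, `|a|² + |a'|² = 1`. -/
theorem prj_quarter {n : ℕ} {Q : Matrix (Fin n) (Fin n) ℝ} (hQ : Qᵀ = Q) (hQ2 : Q * Q = Q)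
    (a b : Fin n → ℝ) (h0 : a ⬝ᵥ b = 0) (h1 : a ⬝ᵥ a + b ⬝ᵥ b = 1) :
    (Q *ᵥ a) ⬝ᵥ b ≤ 1 / 4 ∧ -(1 / 4) ≤ (Q *ᵥ a) ⬝ᵥ b := by
  have h2 := prj_cs (2 • (Q *ᵥ a) - a) b
  have h3 : (2 • (Q *ᵥ a) - a) ⬝ᵥ b = 2 * ((Q *ᵥ a) ⬝ᵥ b) := by
    rw [sub_dotProduct, h0, smul_dotProduct]
    simp
  have h4 : (2 • (Q *ᵥ a) - a) ⬝ᵥ (2 • (Q *ᵥ a) - a) = a ⬝ᵥ a := by
    simp only [sub_dotProduct, dotProduct_sub, smul_dotProduct, dotProduct_smul]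
    have e1 := (prj_con hQ hQ2 a).1
    have e2 : (Q *ᵥ a) ⬝ᵥ a = a ⬝ᵥ (Q *ᵥ a) := dotProduct_comm _ _
    rw [e1, e2]
    simp
    ring
  rw [h3, h4] at h2
  have h5 := prj_nn a
  have h6 := prj_nn b
  have h7 : (4 * ((Q *ᵥ a) ⬝ᵥ b)) ^ 2 ≤ 1 := by
    nlinarith [sq_nonneg (a ⬝ᵥ a - b ⬝ᵥ b)]
  have h8 := abs_le_of_sq_le_sq' (a := 4 * ((Q *ᵥ a) ⬝ᵥ b)) (b := 1) (by simpa using h7)
    zero_le_one
  constructor <;> linarith [h8.1, h8.2]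

theorem st_PRJ : ST_PRJ := by
  intro n P Q hP hP2 hQ hQ2 x p q k d g hp hq hk hd hg
  set e : Fin n → ℝ := Pi.single x 1 with he
  have hent : ∀ M : Matrix (Fin n) (Fin n) ℝ, M x x = e ⬝ᵥ (M *ᵥ e) := by
    intro M
    simp [he]
  have hee : e ⬝ᵥ e = 1 := by simp [he]
  set a := P *ᵥ e with ha
  set c := Q *ᵥ e with hc
  have hp1 : p = e ⬝ᵥ a := hp.trans (hent P)
  have hq1 : q = e ⬝ᵥ c := hq.trans (hent Q)
  have hp2 : p = a ⬝ᵥ a := by rw [hp1, ha, (prj_con hP hP2 e).1]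
  have hq2 : q = c ⬝ᵥ c := by rw [hq1, hc, (prj_con hQ hQ2 e).1]
  have hk1 : k = a ⬝ᵥ c := by
    refine (hk.trans (hent (P * Q))).trans ?_
    rw [← Matrix.mulVec_mulVec, ← prj_sym hP]
  have hk2 : k = a ⬝ᵥ (P *ᵥ c) := by
    rw [hk1, ← prj_sym hP, ha, Matrix.mulVec_mulVec, hP2]
  have hk3 : k = (Q *ᵥ a) ⬝ᵥ c := by
    rw [hk1, prj_sym hQ, hc, Matrix.mulVec_mulVec, hQ2]
  have hA : (P * Q * P) x x = (Q *ᵥ a) ⬝ᵥ (Q *ᵥ a) := by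
    refine (hent (P * Q * P)).trans ?_
    rw [← Matrix.mulVec_mulVec, ← Matrix.mulVec_mulVec, ← prj_sym hP,
      (prj_con hQ hQ2 a).1]
  have hC : (Q * P * Q) x x = (P *ᵥ c) ⬝ᵥ (P *ᵥ c) := by
    refine (hent (Q * P * Q)).trans ?_
    rw [← Matrix.mulVec_mulVec, ← Matrix.mulVec_mulVec, ← prj_sym hQ,
      (prj_con hP hP2 c).1]
  rw [hA, hC] at hg
  have cA := prj_con hQ hQ2 a
  have cC := prj_con hP hP2 c
  have hpe := (prj_con hP hP2 e).2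
  have hqe := (prj_con hQ hQ2 e).2
  rw [← ha, ← hp2, hee] at hpe
  rw [← hc, ← hq2, hee] at hqe
  have hca : c ⬝ᵥ a = k := by rw [hk1, dotProduct_comm]
  have hd1 : d = (a - c) ⬝ᵥ (a - c) := by
    simp only [sub_dotProduct, dotProduct_sub]
    rw [← hp2, ← hq2, hca, ← hk1, hd]
    ring
  have hs1 : (a + c) ⬝ᵥ (a + c) = p + q + 2 * k := by
    simp only [add_dotProduct, dotProduct_add]
    rw [← hp2, ← hq2, hca, ← hk1]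
    ring
  have hd0 : 0 ≤ d := by rw [hd1]; exact prj_nn _
  have hs0 : 0 ≤ p + q + 2 * k := by rw [← hs1]; exact prj_nn _
  have hp0 : 0 ≤ p := by rw [hp2]; exact prj_nn _
  have hq0 : 0 ≤ q := by rw [hq2]; exact prj_nn _
  have hqp : (q - p) ^ 2 ≤ 2 * (p + q) * d := by
    have h1 := prj_cs (a - c) (a + c)
    have h2 : (a - c) ⬝ᵥ (a + c) = p - q := by
      simp only [sub_dotProduct, dotProduct_add]
      rw [← hp2, ← hq2, hca, ← hk1]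
      ring
    rw [h2, hs1, ← hd1] at h1
    nlinarith
  set u := Q *ᵥ a with hu
  set v := P *ᵥ c with hv
  have huc : u ⬝ᵥ c = k := hk3.symm
  have hua : u ⬝ᵥ a = u ⬝ᵥ u := by rw [cA.1, dotProduct_comm]
  have hva : v ⬝ᵥ a = k := by rw [dotProduct_comm]; exact hk2.symm
  have hvc : v ⬝ᵥ c = v ⬝ᵥ v := by rw [cC.1, dotProduct_comm]
  have hg1 : g = (u - v) ⬝ᵥ (a - c) := by
    simp only [sub_dotProduct, dotProduct_sub]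
    rw [hua, huc, hva, hvc, hg]
    ring
  have hpu : u ⬝ᵥ u ≤ p := by rw [hp2]; exact cA.2
  have hqv : v ⬝ᵥ v ≤ q := by rw [hq2]; exact cC.2
  have hgg : g ^ 2 ≤ 2 * (p + q) * d := by
    have h1 := prj_cs (u - v) (a - c)
    rw [← hg1, ← hd1] at h1
    have h2 := prj_nn (u + v)
    have h3 : (u - v) ⬝ᵥ (u - v) + (u + v) ⬝ᵥ (u + v) = 2 * (u ⬝ᵥ u) + 2 * (v ⬝ᵥ v) := by
      simp only [sub_dotProduct, dotProduct_sub, add_dotProduct, dotProduct_add]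
      ring
    have h4 : (u - v) ⬝ᵥ (u - v) ≤ 2 * (p + q) := by linarith
    calc g ^ 2 ≤ (u - v) ⬝ᵥ (u - v) * d := h1
      _ ≤ 2 * (p + q) * d := mul_le_mul_of_nonneg_right h4 hd0
  have hgp : -g ≤ p := by
    have h1 := prj_nn (v - a)
    simp only [sub_dotProduct, dotProduct_sub] at h1
    rw [hva, ← hk2, ← hp2] at h1
    have h2 := prj_nn u
    rw [hg]
    linarith
  have hgq : -g ≤ q := by
    have h1 := prj_nn (u - c)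
    simp only [sub_dotProduct, dotProduct_sub] at h1
    have h3 : c ⬝ᵥ u = k := by rw [dotProduct_comm]; exact huc
    rw [huc, h3, ← hq2] at h1
    have h2 := prj_nn v
    rw [hg]
    linarith
  have hgd : g ≤ d := by rw [hg, hd]; linarith
  have q1 : u ⬝ᵥ (e - a) ≤ 1 / 4 ∧ -(1 / 4) ≤ u ⬝ᵥ (e - a) := by
    refine prj_quarter hQ hQ2 a (e - a) ?_ ?_
    · rw [dotProduct_sub, ← hp2, dotProduct_comm, ← hp1, sub_self]
    · simp only [sub_dotProduct, dotProduct_sub]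
      have : a ⬝ᵥ e = p := by rw [dotProduct_comm, ← hp1]
      rw [← hp2, ← hp1, this, hee]
      ring
  have q2 : v ⬝ᵥ (e - c) ≤ 1 / 4 ∧ -(1 / 4) ≤ v ⬝ᵥ (e - c) := by
    refine prj_quarter hP hP2 c (e - c) ?_ ?_
    · rw [dotProduct_sub, ← hq2, dotProduct_comm, ← hq1, sub_self]
    · simp only [sub_dotProduct, dotProduct_sub]
      have : c ⬝ᵥ e = q := by rw [dotProduct_comm, ← hq1]
      rw [← hq2, ← hq1, this, hee]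
      ring
  have hue : u ⬝ᵥ e = k := by
    rw [hu, prj_sym hQ, ← hc, ← hk1]
  have hve : v ⬝ᵥ e = k := by
    rw [hv, prj_sym hP, ← ha, hca]
  rw [dotProduct_sub, hue, hua] at q1
  rw [dotProduct_sub, hve, hvc] at q2
  have hd2 : d ≤ 2 * (p + q) := by rw [hd]; linarith
  refine ⟨hp0, hpe, hq0, hqe, hd0, hd2, hqp, hgg, hgp, hgq, hgd, ?_, ?_⟩
  · rw [hg]; linarith [q1.1, q1.2, q2.1, q2.2]
  · rw [hg]; linarith [q1.1, q1.2, q2.1, q2.2]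

end Pool.Agent.Helper44.GN
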