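import Pool.Agent.Helper44.GF.All
import Pool.Agent.Helper35.GN.AV1
import Pool.Agent.Helper81.GN.AVB
import Pool.Agent.Helper4.GN.CAL
import Pool.Agent.Helper4.GN.COVR
import Pool.Agent.Helper72.GN.DD2
import Pool.Agent.Helper67.GN.DIN
import Pool.Agent.Helper49.GN.DQF
import Pool.Agent.Helper97.GN.DSG
import Pool.Agent.Helper4.GN.DV
import Pool.Agent.Helper67.GN.EN1
import Pool.Agent.Helper7.GN.EN2
import Pool.Agent.Helper67.GN.EN3
import Pool.Agent.Helper42.GN.ENG
import Pool.Agent.Helper47.GN.EXT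
import Pool.Agent.Helper67.GN.FCT
import Pool.Agent.Helper4.GN.FIN
import Pool.Agent.Helper61.GN.FLM
import Pool.Agent.Helper2.GN.FUB
import Pool.Agent.Helper38.GN.GAM
import Pool.Agent.Helper4.GN.HB
import Pool.Agent.Helper25.GN.HR1
import Pool.Agent.Helper11.GN.HR2
import Pool.Agent.Helper42.GN.LCX
import Pool.Agent.Helper67.GN.LGI
import Pool.Agent.Helper38.GN.LLB
import Pool.Agent.Helper38.GN.LMC
import Pool.Agent.Helper41.GN.LNK
import Pool.Agent.Helper85.GN.LP1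
import Pool.Agent.Helper58.GN.LPT
import Pool.Agent.Helper4.GN.MAIN
import Pool.Agent.Helper77.GN.MAPF
import Pool.Agent.Helper45.GN.MLS2
import Pool.Agent.Helper41.GN.MLSI
import Pool.Agent.Helper95.GN.PJE
import Pool.Agent.Helper47.GN.PJP
import Pool.Agent.Helper37.GN.PLS
import Pool.Agent.Helper44.GN.PRJ
import Pool.Agent.Helper47.GN.REP
import Pool.Agent.Helper71.GN.RHO
import Pool.Agent.Helper47.GN.SCL
import Pool.Agent.Helper97.GN.SMO
import Pool.Agent.Helper61.GN.TAY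
import Pool.Agent.Helper83.GN.THA
import Pool.Agent.Helper38.GN.YD

/-! Assembly of the uniform face inequality. -/

namespace Pool.Agent.Helper44.GN

theorem all_FCT : ST_FCT := st_FCT st_PRJ st_PJP

theorem all_RHO : ST_RHO := st_RHO st_PJP st_PJE

theorem all_DIN : ST_DIN := st_DIN st_PJP

theorem all_DQF : ST_DQF := st_DQF st_PJP st_PJE

theorem all_DD2 : ST_DD2 := st_DD2 st_PJP st_PJE all_DIN

theorem all_DSG : ST_DSG := st_DSG st_PJP st_PJE all_DIN

theorem all_SMO : ST_SMO := st_SMO st_PJP st_PJE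

theorem all_MLSI : ST_MLSI := st_MLSI (st_PLS st_HB)

theorem all_MLS2 : ST_MLS2 := st_MLS2 all_MLSI st_TAY st_LCX st_YD st_PJP

theorem all_AVB : ST_AVB := st_AVB (st_AV1 st_YD) st_FUB all_FCT all_DQF all_DD2 all_SMO st_YD

theorem all_ENG : ST_ENG := st_ENG all_MLS2 all_AVB all_FCT all_SMO st_YD

theorem all_EN1 : ST_EN1 := st_EN1 all_ENG all_FCT all_DQF all_DSG all_SMO

theorem all_EN2 : ST_EN2 := st_EN2 all_ENG all_FCT all_DQF all_SMO

theorem all_EN3 : ST_EN3 := st_EN3 all_ENG all_FCT all_DSG all_SMO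

theorem all_HR2 : ST_HR2 := st_HR2 (st_HR1 st_LGI st_CAL) st_LGI st_DV st_CAL

theorem all_THA : ST_THA := st_THA all_RHO all_FCT all_EN1 all_EN2 all_EN3 all_HR2 all_SMO

theorem all_COVR : ST_COVR :=
  st_COVR st_EXT st_MAPF (Pool.Agent.Helper44.GF.st_COVER
    (Pool.Agent.Helper44.GF.st_CF Pool.Agent.Helper44.GF.st_TFORM))

theorem all_FIN : ST_FIN := st_FIN all_THA all_COVR st_REP (st_LNK st_REP st_YD)

theorem all_MAIN : ST_MAIN :=
  st_MAIN (Pool.Agent.Helper44.GF.st_HFACE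
      (Pool.Agent.Helper44.GF.st_HBALL Pool.Agent.Helper44.GF.st_ISOD))
    st_GAM all_FIN st_SCL st_FLM (st_LPT (Pool.Agent.Helper85.GNLP1.result st_GAM) st_YD) (st_LLB st_GAM st_YD)
    (st_LMC st_YD)

end Pool.Agent.Helper44.GN
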