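import Pool.Agent.Helper44.GF.Defs

/-!
# Face inequality for polyhedral cycles in `ℓ^p_n`, `1.99 ≤ p < 2`, all dimensions (MP_d210aa_gt)

Definitions and the statements of all modules.
-/

open Finset MeasureTheory Filter Topology Matrix
open scoped ENNReal ContDiff

namespace Pool.Agent.Helper44.GN

open Pool.Agent.Helper44.GF

/-! ## A. The model -/

/-- The range of the parameters. -/
structure Pm (α a δ : ℝ) : Prop where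
  al : 199 / 200 ≤ α
  au : α < 1
  a0 : 0 < a
  a1 : a ≤ (1 - α) / 200
  d0 : 0 < δ
  d1 : δ ≤ 1 / 2

/-- The function `Y(z) = 1 + a z^(-4/α)`. -/
noncomputable def yy (α a z : ℝ) : ℝ := 1 + a * z ^ (-(4 / α))

/-- The function `ς = (Y - 1) / Y`. -/
noncomputable def ss (α a z : ℝ) : ℝ := a * z ^ (-(4 / α)) / (1 + a * z ^ (-(4 / α)))

/-- The positive orthant. -/
def Og (n : ℕ) : Set (Fin n → ℝ) := {y | ∀ x, 0 < y x}

/-- The cube `[δ, 1]^n`. -/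
def Bx (n : ℕ) (δ : ℝ) : Set (Fin n → ℝ) := Set.pi Set.univ fun _ => Set.Icc δ 1

/-- The weight. -/
def wz {n : ℕ} (z : Fin n → ℝ) : ℝ := ∏ x, z x ^ 3

/-- The vector `Y(z)`. -/
noncomputable def Yv {n : ℕ} (α a : ℝ) (z : Fin n → ℝ) : Fin n → ℝ := fun x => yy α a (z x)

/-- The integral over the cube with the weight `ρ`. -/
noncomputable def IB {n : ℕ} (δ : ℝ) (ρ f : (Fin n → ℝ) → ℝ) : ℝ :=
  ∫ z in Bx n δ, f z * ρ z

/-- The entropy of `exp f` with respect to the weight `ρ`. -/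
noncomputable def En {n : ℕ} (δ : ℝ) (ρ f : (Fin n → ℝ) → ℝ) : ℝ :=
  IB δ ρ (fun z => f z * Real.exp (f z))
    - IB δ ρ (fun z => Real.exp (f z))
      * Real.log (IB δ ρ (fun z => Real.exp (f z)) / IB δ ρ (fun _ => 1))

section LinAlg

variable {n m : ℕ}

/-- The matrix `Vᵀ D_y W`. -/
def TT (V W : Matrix (Fin n) (Fin m) ℝ) (y : Fin n → ℝ) : Matrix (Fin m) (Fin m) ℝ :=
  Vᵀ * Matrix.diagonal y * W

/-- The determinant of the Gram matrix. -/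
noncomputable def qf (V : Matrix (Fin n) (Fin m) ℝ) (y : Fin n → ℝ) : ℝ := (TT V V y).det

/-- The orthogonal projection onto the image of `D_y^(1/2) V`. -/
noncomputable def PJ (V : Matrix (Fin n) (Fin m) ℝ) (y : Fin n → ℝ) : Matrix (Fin n) (Fin n) ℝ :=
  Matrix.diagonal (fun x => √(y x)) * V * (TT V V y)⁻¹ * Vᵀ * Matrix.diagonal (fun x => √(y x))

/-- The leverage. -/
noncomputable def lv (V : Matrix (Fin n) (Fin m) ℝ) (y : Fin n → ℝ) (x : Fin n) : ℝ := PJ V y x x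

/-- The mixed leverage. -/
noncomputable def kp (V W : Matrix (Fin n) (Fin m) ℝ) (y : Fin n → ℝ) (x : Fin n) : ℝ :=
  (PJ V y * PJ W y) x x

/-- The distance of the columns of the two projections. -/
noncomputable def d2 (V W : Matrix (Fin n) (Fin m) ℝ) (y : Fin n → ℝ) (x : Fin n) : ℝ :=
  lv V y x + lv W y x - 2 * kp V W y x

/-- The distance of the two projections. -/
noncomputable def sg (V W : Matrix (Fin n) (Fin m) ℝ) (y : Fin n → ℝ) : ℝ :=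
  m - Matrix.trace (PJ V y * PJ W y)

/-- The logarithmic derivative of `sg`. -/
noncomputable def gs (V W : Matrix (Fin n) (Fin m) ℝ) (y : Fin n → ℝ) (x : Fin n) : ℝ :=
  (PJ V y * PJ W y * PJ V y) x x + (PJ W y * PJ V y * PJ W y) x x - 2 * kp V W y x

/-- The logarithm of the ratio of the volumes. -/
noncomputable def Xf (V W : Matrix (Fin n) (Fin m) ℝ) (y : Fin n → ℝ) : ℝ :=
  1 / 2 * (Real.log (qf W y) - Real.log (qf V y))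

/-- The density. -/
noncomputable def rho (V : Matrix (Fin n) (Fin m) ℝ) (α a : ℝ) (z : Fin n → ℝ) : ℝ :=
  wz z * (qf V (Yv α a z)) ^ (-(1 / 2) : ℝ)

end LinAlg

/-! ## B. Linear algebra -/

def ST_PRJ : Prop :=
  ∀ (n : ℕ) (P Q : Matrix (Fin n) (Fin n) ℝ), Pᵀ = P → P * P = P → Qᵀ = Q → Q * Q = Q →
    ∀ (x : Fin n) (p q k d g : ℝ), p = P x x → q = Q x x → k = (P * Q) x x →
      d = p + q - 2 * k → g = (P * Q * P) x x + (Q * P * Q) x x - 2 * k →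
      0 ≤ p ∧ p ≤ 1 ∧ 0 ≤ q ∧ q ≤ 1 ∧ 0 ≤ d ∧ d ≤ 2 * (p + q) ∧ (q - p) ^ 2 ≤ 2 * (p + q) * d ∧
      g ^ 2 ≤ 2 * (p + q) * d ∧ -g ≤ p ∧ -g ≤ q ∧ g ≤ d ∧ g ≤ 1 / 2 ∧ -g ≤ 1 / 2

/-- The matrices `PJ` are projections of rank `m`. -/
def ST_PJP : Prop :=
  ∀ (n m : ℕ) (V : Matrix (Fin n) (Fin m) ℝ), Function.Injective V.mulVec → ∀ y ∈ Og n,
    0 < qf V y ∧ (PJ V y)ᵀ = PJ V y ∧ PJ V y * PJ V y = PJ V y ∧ Matrix.trace (PJ V y) = m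

/-- The projections without square roots. -/
def ST_PJE : Prop :=
  ∀ (n m : ℕ) (V W : Matrix (Fin n) (Fin m) ℝ) (y : Fin n → ℝ), y ∈ Og n →
    (∀ x, lv V y x = y x * (V x ⬝ᵥ (TT V V y)⁻¹ *ᵥ V x)) ∧
    (∀ x, kp V W y x = y x * (V x ⬝ᵥ ((TT V V y)⁻¹ * TT V W y * (TT W W y)⁻¹) *ᵥ W x)) ∧
    Matrix.trace (PJ V y * PJ W y)
      = Matrix.trace ((TT V V y)⁻¹ * TT V W y * (TT W W y)⁻¹ * TT W V y) ∧
    (∀ x, (PJ V y * PJ W y * PJ V y) x x = y x * (V x ⬝ᵥ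
      ((TT V V y)⁻¹ * TT V W y * (TT W W y)⁻¹ * TT W V y * (TT V V y)⁻¹) *ᵥ V x))

/-- The facts on the quantities of the model. -/
def ST_FCT : Prop :=
  ∀ (n m : ℕ) (V W : Matrix (Fin n) (Fin m) ℝ), Function.Injective V.mulVec →
    Function.Injective W.mulVec → ∀ y ∈ Og n,
    0 < qf V y ∧ 0 < qf W y ∧ 0 ≤ sg V W y ∧ ∑ x, d2 V W y x = 2 * sg V W y ∧
    ∀ x, 0 ≤ lv V y x ∧ lv V y x ≤ 1 ∧ 0 ≤ lv W y x ∧ lv W y x ≤ 1 ∧ 0 ≤ d2 V W y x ∧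
      d2 V W y x ≤ 2 * (lv V y x + lv W y x) ∧
      (lv W y x - lv V y x) ^ 2 ≤ 2 * (lv V y x + lv W y x) * d2 V W y x ∧
      gs V W y x ^ 2 ≤ 2 * (lv V y x + lv W y x) * d2 V W y x ∧
      -gs V W y x ≤ lv V y x ∧ -gs V W y x ≤ lv W y x ∧ gs V W y x ≤ d2 V W y x ∧
      gs V W y x ≤ 1 / 2 ∧ -gs V W y x ≤ 1 / 2

/-- The determinant is bounded by the trace. -/
def ST_RHO : Prop :=
  ∀ (n m : ℕ) (V W : Matrix (Fin n) (Fin m) ℝ), Function.Injective V.mulVec →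
    Function.Injective W.mulVec → ∀ y ∈ Og n,
    (TT V W y).det ^ 2 ≤ qf V y * qf W y * Real.exp (-sg V W y)

/-- The derivative of the inverse of the Gram matrix. -/
def ST_DIN : Prop :=
  ∀ (n m : ℕ) (V : Matrix (Fin n) (Fin m) ℝ), Function.Injective V.mulVec → ∀ y ∈ Og n,
    ∀ (x : Fin n) (i j : Fin m),
    HasDerivAt (fun s => (TT V V (Function.update y x s))⁻¹ i j)
      (-((TT V V y)⁻¹ * Matrix.vecMulVec (V x) (V x) * (TT V V y)⁻¹) i j) (y x)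

/-- The logarithmic derivative of the determinant. -/
def ST_DQF : Prop :=
  ∀ (n m : ℕ) (V : Matrix (Fin n) (Fin m) ℝ), Function.Injective V.mulVec → ∀ y ∈ Og n,
    ∀ x : Fin n, HasDerivAt (fun s => Real.log (qf V (Function.update y x s)))
      (lv V y x / y x) (y x)

/-- The logarithmic derivative of `d2`. -/
def ST_DD2 : Prop :=
  ∀ (n m : ℕ) (V W : Matrix (Fin n) (Fin m) ℝ), Function.Injective V.mulVec →
    Function.Injective W.mulVec → ∀ y ∈ Og n,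
    ∀ x : Fin n, HasDerivAt (fun s => d2 V W (Function.update y x s) x)
      (d2 V W y x * (1 - lv V y x - lv W y x) / y x) (y x)

/-- The logarithmic derivative of `sg`. -/
def ST_DSG : Prop :=
  ∀ (n m : ℕ) (V W : Matrix (Fin n) (Fin m) ℝ), Function.Injective V.mulVec →
    Function.Injective W.mulVec → ∀ y ∈ Og n,
    ∀ x : Fin n, HasDerivAt (fun s => sg V W (Function.update y x s)) (gs V W y x / y x) (y x)

/-- Smoothness. -/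
def ST_SMO : Prop :=
  ∀ (n m : ℕ) (V W : Matrix (Fin n) (Fin m) ℝ), Function.Injective V.mulVec →
    Function.Injective W.mulVec →
    ContDiffOn ℝ 2 (fun y => Real.log (qf V y)) (Og n) ∧
    ContDiffOn ℝ 2 (fun y => sg V W y) (Og n) ∧
    (∀ x, ContinuousOn (fun y => lv V y x) (Og n)) ∧
    (∀ x, ContinuousOn (fun y => d2 V W y x) (Og n)) ∧
    (∀ x, ContinuousOn (fun y => gs V W y x) (Og n))

/-- Elementary facts on `Y` and `ς`. -/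
def ST_YD : Prop :=
  ∀ α a : ℝ, 199 / 200 ≤ α → α < 1 → 0 < a → ∀ z : ℝ, 0 < z →
    1 < yy α a z ∧ 0 < ss α a z ∧ ss α a z < 1 ∧
    HasDerivAt (yy α a) (-(4 / α * ss α a z * yy α a z / z)) z ∧
    HasDerivAt (ss α a) (-(4 / α * ss α a z * (1 - ss α a z) / z)) z ∧
    (1 / 2 ≤ z → ss α a z ≤ 17 * a) ∧ ss α a 1 ≤ a

/-- The log-convexity of the Gram determinant. -/
def ST_LCX : Prop :=
  ∀ (n m : ℕ) (V : Matrix (Fin n) (Fin m) ℝ) (α a δ : ℝ), Function.Injective V.mulVec →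
    Pm α a δ → ∀ u ∈ Bx n δ, ∀ v ∈ Bx n δ, ∀ t s : ℝ, 0 < t → 0 < s → t + s = 1 →
    qf V (Yv α a (t • u + s • v)) ≤ qf V (Yv α a u) ^ t * qf V (Yv α a v) ^ s

/-! ## C. The modified logarithmic Sobolev inequality -/

def ST_HB : Prop :=
  ∀ w η : ℝ, w ≤ 51 / 25 → 0 < η → w * (η - 1) - 3 * (η - 1 - Real.log η) ≤ w ^ 2 / 3

/-- The hypotheses of the modified logarithmic Sobolev inequality. -/
structure LH {n : ℕ} (δ : ℝ) (Q f : (Fin n → ℝ) → ℝ) (D : Fin n → (Fin n → ℝ) → ℝ) (C : ℝ) :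
    Prop where
  d0 : 0 < δ
  d1 : δ < 1
  C0 : 0 ≤ C
  Qc : ContinuousOn Q (Bx n δ)
  Q0 : ∀ z ∈ Bx n δ, 0 < Q z
  Ql : ∀ u ∈ Bx n δ, ∀ v ∈ Bx n δ, ∀ t s : ℝ, 0 < t → 0 < s → t + s = 1 →
    Q (t • u + s • v) ≤ Q u ^ t * Q v ^ s
  fc : ContinuousOn f (Bx n δ)
  Dc : ∀ x, ContinuousOn (D x) (Bx n δ)
  tay : ∀ u ∈ Bx n δ, ∀ z ∈ Bx n δ,
    f u ≤ f z + ∑ x, D x z * (u x - z x) + C * ∑ x, (u x - z x) ^ 2
  D1 : ∀ z ∈ Bx n δ, ∀ x, -(z x * D x z) ≤ 101 / 50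

/-- The Prékopa–Leindler step. -/
def ST_PLS : Prop :=
  ∀ (n : ℕ) (δ : ℝ) (Q f : (Fin n → ℝ) → ℝ) (D : Fin n → (Fin n → ℝ) → ℝ) (C : ℝ),
    LH δ Q f D C → ∀ s : ℝ, 0 < s → s ≤ 1 / 102 →
    IB δ (fun z => wz z / Q z) (fun z => Real.exp (f z / (1 - s))) ^ (1 - s)
        * IB δ (fun z => wz z / Q z) (fun _ => 1) ^ s
      ≤ IB δ (fun z => wz z / Q z) (fun z => Real.exp (f z
          + s / (3 * (1 - s) ^ 2) * ∑ x, (z x * D x z) ^ 2 + 2 * C * n * s ^ 2))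

def ST_MLSI : Prop :=
  ∀ (n : ℕ) (δ : ℝ) (Q f : (Fin n → ℝ) → ℝ) (D : Fin n → (Fin n → ℝ) → ℝ) (C : ℝ),
    LH δ Q f D C →
    En δ (fun z => wz z / Q z) f
      ≤ 1 / 3 * IB δ (fun z => wz z / Q z)
          (fun z => Real.exp (f z) * ∑ x, (z x * D x z) ^ 2)

/-- Taylor's formula. -/
def ST_TAY : Prop :=
  ∀ (n : ℕ) (δ : ℝ), 0 < δ → δ < 1 → ∀ f : (Fin n → ℝ) → ℝ, ContDiffOn ℝ 2 f (Og n) →
    ∀ D : Fin n → (Fin n → ℝ) → ℝ,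
    (∀ z ∈ Og n, ∀ x, HasDerivAt (fun s => f (Function.update z x s)) (D x z) (z x)) →
    (∀ x, ContinuousOn (D x) (Bx n δ)) ∧
    ∃ C : ℝ, 0 ≤ C ∧ ∀ u ∈ Bx n δ, ∀ z ∈ Bx n δ,
      f u ≤ f z + ∑ x, D x z * (u x - z x) + C * ∑ x, (u x - z x) ^ 2

/-- `E` is the logarithmic gradient of the smooth function `g`. -/
structure LG {n : ℕ} (g : (Fin n → ℝ) → ℝ) (E : Fin n → (Fin n → ℝ) → ℝ) : Prop where
  sm : ContDiffOn ℝ 2 g (Og n)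
  ct : ∀ x, ContinuousOn (E x) (Og n)
  der : ∀ y ∈ Og n, ∀ x, HasDerivAt (fun s => g (Function.update y x s)) (E x y / y x) (y x)

def ST_MLS2 : Prop :=
  ∀ (n m : ℕ) (V : Matrix (Fin n) (Fin m) ℝ) (α a δ : ℝ) (g : (Fin n → ℝ) → ℝ)
    (E : Fin n → (Fin n → ℝ) → ℝ), Function.Injective V.mulVec → Pm α a δ → LG g E →
    (∀ z ∈ Bx n δ, ∀ x, E x (Yv α a z) ≤ 1 / 2) →
    En δ (rho V α a) (fun z => g (Yv α a z))
      ≤ 16 / (3 * α ^ 2) * IB δ (rho V α a) (fun z => Real.exp (g (Yv α a z))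
          * ∑ x, (ss α a (z x) * E x (Yv α a z)) ^ 2)

/-! ## D. The averaging step -/

/-- The one-dimensional inequality. -/
def ST_AV1 : Prop :=
  ∀ (α a δ ϑ : ℝ) (G L P : ℝ → ℝ), Pm α a δ → 0 < ϑ → ϑ ≤ 1 →
    (∀ z ∈ Set.Icc δ 1, HasDerivAt G (-(4 / α * ss α a z / z * L z * G z)) z) →
    (∀ z ∈ Set.Icc δ 1, 0 ≤ G z) → (∀ z ∈ Set.Icc δ 1, 0 ≤ P z) →
    (∀ z ∈ Set.Icc δ 1, -3 ≤ L z) → (∀ z ∈ Set.Icc δ 1, L z ≤ 1 - ϑ * P z) →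
    ContinuousOn L (Set.Icc δ 1) → ContinuousOn P (Set.Icc δ 1) →
    ∫ z in δ..1, z ^ 3 * (ss α a z ^ 2 * P z * G z)
      ≤ 1 / (2 * ϑ) * (2 * (1 - α) + 5 * a) * ∫ z in δ..1, z ^ 3 * G z

/-- Integration over one coordinate. -/
def ST_FUB : Prop :=
  ∀ (n : ℕ) (δ : ℝ) (x : Fin n) (Φ Ψ : (Fin n → ℝ) → ℝ), 0 < δ → δ < 1 →
    ContinuousOn Φ (Bx n δ) → ContinuousOn Ψ (Bx n δ) →
    (∀ z ∈ Bx n δ, ∫ s in δ..1, Φ (Function.update z x s)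
      ≤ ∫ s in δ..1, Ψ (Function.update z x s)) →
    ∫ z in Bx n δ, Φ z ≤ ∫ z in Bx n δ, Ψ z

def ST_AVB : Prop :=
  ∀ (n m : ℕ) (V W : Matrix (Fin n) (Fin m) ℝ) (α a δ ϑ : ℝ) (g : (Fin n → ℝ) → ℝ)
    (E : Fin n → (Fin n → ℝ) → ℝ), Function.Injective V.mulVec → Function.Injective W.mulVec →
    Pm α a δ → 0 < ϑ → ϑ ≤ 1 → LG g E → ∀ x : Fin n,
    (∀ y ∈ Og n, -1 ≤ E x y) →
    (∀ y ∈ Og n, E x y ≤ (1 - ϑ) * (lv V y x + lv W y x) + 1 / 2 * lv V y x) →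
    IB δ (rho V α a) (fun z => Real.exp (g (Yv α a z)) * (ss α a (z x) ^ 2
        * (lv V (Yv α a z) x + lv W (Yv α a z) x) * d2 V W (Yv α a z) x))
      ≤ 1 / (2 * ϑ) * (2 * (1 - α) + 5 * a)
        * IB δ (rho V α a) (fun z => Real.exp (g (Yv α a z)) * d2 V W (Yv α a z) x)

/-- The general entropy bound. -/
def ST_ENG : Prop :=
  ∀ (n m : ℕ) (V W : Matrix (Fin n) (Fin m) ℝ) (α a δ ϑ κ : ℝ) (g : (Fin n → ℝ) → ℝ)
    (E : Fin n → (Fin n → ℝ) → ℝ), Function.Injective V.mulVec → Function.Injective W.mulVec →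
    Pm α a δ → 0 < ϑ → ϑ ≤ 1 → 0 ≤ κ → LG g E →
    (∀ y ∈ Og n, ∀ x, -1 ≤ E x y) → (∀ y ∈ Og n, ∀ x, E x y ≤ 1 / 2) →
    (∀ y ∈ Og n, ∀ x, E x y ≤ (1 - ϑ) * (lv V y x + lv W y x) + 1 / 2 * lv V y x) →
    (∀ y ∈ Og n, ∀ x, E x y ^ 2 ≤ κ * (lv V y x + lv W y x) * d2 V W y x) →
    En δ (rho V α a) (fun z => g (Yv α a z))
      ≤ 16 * κ / (3 * α ^ 2 * ϑ) * (2 * (1 - α) + 5 * a)
        * IB δ (rho V α a) (fun z => Real.exp (g (Yv α a z)) * sg V W (Yv α a z))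

def ST_EN1 : Prop :=
  ∀ (n m : ℕ) (V W : Matrix (Fin n) (Fin m) ℝ) (α a δ τ : ℝ), Function.Injective V.mulVec →
    Function.Injective W.mulVec → Pm α a δ → 0 ≤ τ → τ ≤ 1 →
    En δ (rho V α a) (fun z => τ * (Xf V W (Yv α a z) - 1 / 2 * sg V W (Yv α a z)))
      ≤ 11 / 50 * τ ^ 2 * IB δ (rho V α a) (fun z =>
        Real.exp (τ * (Xf V W (Yv α a z) - 1 / 2 * sg V W (Yv α a z))) * sg V W (Yv α a z))

def ST_EN2 : Prop :=
  ∀ (n m : ℕ) (V W : Matrix (Fin n) (Fin m) ℝ) (α a δ τ : ℝ), Function.Injective V.mulVec →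
    Function.Injective W.mulVec → Pm α a δ → 0 ≤ τ → τ ≤ 1 →
    En δ (rho V α a) (fun z => τ * -(Xf V W (Yv α a z)))
      ≤ 11 / 200 * τ ^ 2 * IB δ (rho V α a) (fun z =>
        Real.exp (τ * -(Xf V W (Yv α a z))) * sg V W (Yv α a z))

def ST_EN3 : Prop :=
  ∀ (n m : ℕ) (V W : Matrix (Fin n) (Fin m) ℝ) (α a δ τ : ℝ), Function.Injective V.mulVec →
    Function.Injective W.mulVec → Pm α a δ → 0 ≤ τ → τ ≤ 1 / 3 →
    En δ (rho V α a) (fun z => τ * sg V W (Yv α a z))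
      ≤ 33 / 100 * τ ^ 2 * IB δ (rho V α a) (fun z =>
        Real.exp (τ * sg V W (Yv α a z)) * sg V W (Yv α a z))

/-! ## E. Herbst's argument -/

/-- A bounded weight on the cube. -/
structure WH {n : ℕ} (δ : ℝ) (ρ : (Fin n → ℝ) → ℝ) : Prop where
  d0 : 0 < δ
  d1 : δ < 1
  rc : ContinuousOn ρ (Bx n δ)
  r0 : ∀ z ∈ Bx n δ, 0 < ρ z

/-- The derivative of the logarithm of the Laplace transform. -/
def ST_LGI : Prop :=
  ∀ (n : ℕ) (δ : ℝ) (ρ F : (Fin n → ℝ) → ℝ), WH δ ρ → ContinuousOn F (Bx n δ) →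
    (∀ t : ℝ, 0 < IB δ ρ (fun z => Real.exp (t * F z))) ∧ 0 < IB δ ρ (fun _ => 1) ∧
    ∀ t : ℝ, HasDerivAt
      (fun t => Real.log (IB δ ρ (fun z => Real.exp (t * F z)) / IB δ ρ (fun _ => 1)))
      (IB δ ρ (fun z => F z * Real.exp (t * F z)) / IB δ ρ (fun z => Real.exp (t * F z))) t

/-- The entropy inequality. -/
def ST_DV : Prop :=
  ∀ (n : ℕ) (δ : ℝ) (ρ F G : (Fin n → ℝ) → ℝ), WH δ ρ → ContinuousOn F (Bx n δ) →
    ContinuousOn G (Bx n δ) →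
    IB δ ρ (fun z => Real.exp (F z) * G z)
      ≤ En δ ρ F + IB δ ρ (fun z => Real.exp (F z))
          * Real.log (IB δ ρ (fun z => Real.exp (G z)) / IB δ ρ (fun _ => 1))

/-- Integration of the differential inequality. -/
def ST_CAL : Prop :=
  ∀ (Λ Λ' H h : ℝ → ℝ) (T : ℝ), 0 < T → (∀ t, HasDerivAt Λ (Λ' t) t) → Λ 0 = 0 →
    (∀ t ∈ Set.Icc 0 T, HasDerivAt H (h t) t) → H 0 = 0 →
    (∀ t, 0 < t → t ≤ T → t * Λ' t - Λ t ≤ t ^ 2 * h t) →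
    Λ T ≤ T * (Λ' 0 + H T)

/-- The Laplace transform of `S`. -/
def ST_HR1 : Prop :=
  ∀ (n : ℕ) (δ : ℝ) (ρ S : (Fin n → ℝ) → ℝ), WH δ ρ → ContinuousOn S (Bx n δ) →
    (∀ z ∈ Bx n δ, 0 ≤ S z) →
    (∀ t : ℝ, 0 ≤ t → t ≤ 1 / 3 → En δ ρ (fun z => t * S z)
      ≤ 33 / 100 * t ^ 2 * IB δ ρ (fun z => Real.exp (t * S z) * S z)) →
    Real.log (IB δ ρ (fun z => Real.exp (1 / 3 * S z)) / IB δ ρ (fun _ => 1))
      ≤ 100 / 267 * (IB δ ρ S / IB δ ρ (fun _ => 1))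

/-- Herbst's argument. -/
def ST_HR2 : Prop :=
  ∀ (n : ℕ) (δ k : ℝ) (ρ F S : (Fin n → ℝ) → ℝ), WH δ ρ → ContinuousOn F (Bx n δ) →
    ContinuousOn S (Bx n δ) → (∀ z ∈ Bx n δ, 0 ≤ S z) → 0 ≤ k → k ≤ 11 / 50 →
    (∀ t : ℝ, 0 ≤ t → t ≤ 1 → En δ ρ (fun z => t * F z)
      ≤ k * t ^ 2 * IB δ ρ (fun z => Real.exp (t * F z) * S z)) →
    (∀ t : ℝ, 0 ≤ t → t ≤ 1 / 3 → En δ ρ (fun z => t * S z)
      ≤ 33 / 100 * t ^ 2 * IB δ ρ (fun z => Real.exp (t * S z) * S z)) →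
    Real.log (IB δ ρ (fun z => Real.exp (F z)) / IB δ ρ (fun _ => 1))
      ≤ IB δ ρ F / IB δ ρ (fun _ => 1) + 17 / 10 * k * (IB δ ρ S / IB δ ρ (fun _ => 1))

/-- The inequality for the finite model. -/
def ST_THA : Prop :=
  ∀ (n m : ℕ) (V W : Matrix (Fin n) (Fin m) ℝ) (α a δ : ℝ), Function.Injective V.mulVec →
    Function.Injective W.mulVec → Pm α a δ →
    (∫ z in Bx n δ, wz z * |(TT V W (Yv α a z)).det|
        * (qf V (Yv α a z)) ^ (-(3 / 2) : ℝ))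
      * (∫ z in Bx n δ, wz z * (qf W (Yv α a z)) ^ (-(1 / 2) : ℝ))
    ≤ (∫ z in Bx n δ, wz z * (qf V (Yv α a z)) ^ (-(1 / 2) : ℝ)) ^ 2

/-! ## F. Geometry -/

/-- Completion to an invertible matrix. -/
def ST_EXT : Prop :=
  ∀ (d n : ℕ) (B : Matrix (Fin d) (Fin n) ℝ), LinearIndependent ℝ (fun i => B i) →
    ∃ (A : Matrix (Fin n) (Fin n) ℝ) (f : Fin d → Fin n), Function.Injective f ∧ A.det ≠ 0 ∧
      ∀ i j, A (f i) j = B i j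

/-- The image of a cycle under an invertible linear map. -/
def ST_MAPF : Prop :=
  ∀ (m n K : ℕ) (A : Matrix (Fin n) (Fin n) ℝ), A.det ≠ 0 →
    ∀ (F : Fin K → Face (m + 1) n) (θ : Fin K → ℤ), IsCycle F θ →
    ∃ F' : Fin K → Face (m + 1) n, IsCycle F' θ ∧ (∀ j, (F' j).dom = (F j).dom) ∧
      ∀ j, (F' j).mat = A * (F j).mat

/-- The covering property for general projections. -/
def ST_COVR : Prop :=
  ∀ (m n K : ℕ) (F : Fin K → Face (m + 1) n) (θ : Fin K → ℤ), (∀ j, θ j ≠ 0) → IsCycle F θ →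
    ∀ R : Fin n → ℝ, R ∈ Og n → ∀ i : Fin K,
      qf (F i).mat R * (volume (F i).dom).toReal
        ≤ ∑ j ∈ univ.erase i, |(TT (F i).mat (F j).mat R).det| * (volume (F j).dom).toReal

/-- The matrix with every row repeated `N` times. -/
def rp {n m : ℕ} (N : ℕ) (V : Matrix (Fin n) (Fin m) ℝ) : Matrix (Fin (n * N)) (Fin m) ℝ :=
  V.submatrix (fun x => (finProdFinEquiv.symm x).1) id

/-- The sum of the weights over the repeated rows. -/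
def Rs {n : ℕ} (N : ℕ) (y : Fin (n * N) → ℝ) : Fin n → ℝ :=
  fun i => ∑ k : Fin N, y (finProdFinEquiv (i, k))

def ST_REP : Prop :=
  ∀ (n m N : ℕ), 1 ≤ N →
    (∀ V : Matrix (Fin n) (Fin m) ℝ, Function.Injective V.mulVec →
      Function.Injective (rp N V).mulVec) ∧
    (∀ (V W : Matrix (Fin n) (Fin m) ℝ) (y : Fin (n * N) → ℝ),
      TT (rp N V) (rp N W) y = TT V W (Rs N y)) ∧
    ∀ y ∈ Og (n * N), Rs N y ∈ Og n

/-- The Laplace exponent of the finite model. -/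
noncomputable def lamf (α a δ : ℝ) (N : ℕ) (u : ℝ) : ℝ :=
  -(N * Real.log ((∫ z in δ..1, z ^ 3 * Real.exp (-(u * yy α a z))) / ∫ z in δ..1, z ^ 3))

/-- The face inequality for the exponent `Λ`. -/
def FI (m n : ℕ) (Λ : ℝ → ℝ) : Prop :=
  ∀ (K : ℕ) (F : Fin K → Face (m + 1) n) (θ : Fin K → ℤ), (∀ j, θ j ≠ 0) → IsCycle F θ →
    ∀ i, (volume (F i).dom).toReal / MM Λ (F i).mat
      ≤ ∑ j ∈ univ.erase i, (volume (F j).dom).toReal / MM Λ (F j).mat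

/-- The integral `MM` for the finite model. -/
def ST_LNK : Prop :=
  ∀ (n m N : ℕ) (α a δ : ℝ), Pm α a δ → 1 ≤ N →
    ∃ C : ℝ, 0 < C ∧ ∀ V : Matrix (Fin n) (Fin m) ℝ, Function.Injective V.mulVec →
      ∫ z in Bx (n * N) δ, rho (rp N V) α a z = C * MM (lamf α a δ N) V

/-- The face inequality for the finite model. -/
def ST_FIN : Prop :=
  ∀ (m n N : ℕ) (α a δ : ℝ), Pm α a δ → 1 ≤ N → FI m n (lamf α a δ N)

/-- Scaling. -/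
def ST_SCL : Prop :=
  ∀ (m n : ℕ) (Λ : ℝ → ℝ) (c : ℝ), 0 < c → FI m n Λ → FI m n (fun u => Λ (c * u))

/-- Limits. -/
def ST_FLM : Prop :=
  ∀ (m n : ℕ) (Λk : ℕ → ℝ → ℝ) (Λ : ℝ → ℝ) (a b : ℝ), 0 < a →
    (∀ k, ContinuousOn (Λk k) (Set.Ici 0)) →
    (∀ k u, 0 ≤ u → a * Real.sqrt u - b ≤ Λk k u) →
    (∀ u, 0 ≤ u → Tendsto (fun k => Λk k u) atTop (𝓝 (Λ u))) →
    (∀ F : Face (m + 1) n, 0 < MM Λ F.mat) →
    (∀ k, FI m n (Λk k)) → FI m n Λ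

/-! ## G. Approximation of the stable exponent -/

/-- The normalising integral. -/
noncomputable def Jg (α : ℝ) : ℝ :=
  ∫ v in Set.Ioi (0 : ℝ), (1 - Real.exp (-v)) * v ^ (-1 - α)

def ST_GAM : Prop :=
  ∀ α : ℝ, 0 < α → α < 1 →
    IntegrableOn (fun v : ℝ => (1 - Real.exp (-v)) * v ^ (-1 - α)) (Set.Ioi 0) ∧ 0 < Jg α

/-- The scale. -/
noncomputable def cs (α a : ℝ) (k : ℕ) : ℝ :=
  (α * Jg α) ^ (-(1 / α)) / a * ((k : ℝ) + 1) ^ (-(1 / α))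

/-- The pointwise limit of the integrals. -/
def ST_LP1 : Prop :=
  ∀ α a : ℝ, 199 / 200 ≤ α → α < 1 → 0 < a → ∀ u : ℝ, 0 ≤ u →
    Tendsto (fun k : ℕ => ((k : ℝ) + 1) * ∫ z in (1 / ((k : ℝ) + 2))..1,
      z ^ 3 * (1 - Real.exp (-(cs α a k * u * yy α a z)))) atTop (𝓝 (u ^ α / 4))

/-- The pointwise limit of the exponents. -/
def ST_LPT : Prop :=
  ∀ α a : ℝ, 199 / 200 ≤ α → α < 1 → 0 < a → ∀ u : ℝ, 0 ≤ u →
    Tendsto (fun k : ℕ => lamf α a (1 / ((k : ℝ) + 2)) (k + 1) (cs α a k * u)) atTop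
      (𝓝 (u ^ α))

/-- The lower bound. -/
def ST_LLB : Prop :=
  ∀ α a : ℝ, 199 / 200 ≤ α → α < 1 → 0 < a → ∃ a' b' : ℝ, 0 < a' ∧
    ∀ (k : ℕ) (u : ℝ), 0 ≤ u → a' * Real.sqrt u - b'
      ≤ lamf α a (1 / ((k : ℝ) + 2)) (k + 1) (cs α a k * u)

/-- Continuity. -/
def ST_LMC : Prop :=
  ∀ (α a δ c : ℝ) (N : ℕ), 0 < δ → δ < 1 → 0 < a → 0 < c →
    ContinuousOn (fun u => lamf α a δ N (c * u)) (Set.Ici 0)

/-- The main theorem. -/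
def ST_MAIN : Prop :=
  ∀ (m n K : ℕ) (p : ℝ), 199 / 100 ≤ p → p < 2 →
    ∀ [Fact (1 ≤ ENNReal.ofReal p)] (F : Fin K → Face (m + 1) n) (θ : Fin K → ℤ),
    (∀ j, θ j ≠ 0) → IsCycle F θ → ∀ i,
      μH[(m : ℝ) + 1] ((F i).carrier (ENNReal.ofReal p))
        ≤ ∑ j ∈ univ.erase i, μH[(m : ℝ) + 1] ((F j).carrier (ENNReal.ofReal p))

end Pool.Agent.Helper44.GN
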